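import Pool.Agent.Lib.MP_7710ee_inv.Groups

/-!
# MP_7710ee_co: all groups and all sets which attain `f(m)`, for large `m`

`SigmaStar A` is `Σ*A`, `rhoZ G m` is `ρ(G, m)` and `f m` is its minimum over all finite abelian groups
(see `Pool/Agent/Lib/MP_ee6709_co/Defs.lean`).  In `m ^ 2 / 2` and `m ^ 2 / (2 * |T|)` the division is the
floor division of natural numbers.

For `m ≥ M`:

1. for `n ≥ 1`: `f(m) = ρ(ℤ_n, m)` if and only if `n` is even and `n ≥ ⌊m²/2⌋ + 2`;
2. a finite abelian group `G` attains `f(m)` if and only if it has a subgroup `T` and an element `g` with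
   `j g ∉ T` for `1 ≤ j ≤ m² / (2 |T|)` and `|T| = 2`, or `|T| = 4` and `m ≡ 2 mod 4`, or `|T| = 6` and
   `m ≡ 3 mod 6`;
3. a set `A` of `m` elements is weakly zero-sum-free with `|Σ*A| = f(m)` if and only if there are a
   subgroup `T` of order `2`, `4` or `6` and an element `g` such that `A` is the union of a weakly
   zero-sum-free half `B` of `T`, of the cosets `g + T, ..., k g + T` and (only if `|T| = 2`) of at most
   one element of `(k + 1) g + T`, and `j g ∉ T` for `1 ≤ j ≤ m² / (2 |T|)`.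

Outline of the proof.  The library of our CyclicForLarge shows that a zero-sum-free set `A` with few
subset sums has, for large `m`, a homomorphism `ψ` of the group generated by `A` onto `ℤ_ν` with a
small kernel `T`, for which the levels of small height are almost full.  Here the analysis is made exact:
`2 |A ∩ T| = |T| ≤ 6`, the sums of `A` without one element of height one fill a whole interval of cosets
of `T`, hence (no zero sum) all heights have the same sign, and `|Σ*A| + 1 = |T| (h + 1)` with the sum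
`h` of the heights; for `2 |Σ*A| ≤ m² + 2` this forces `h` to be minimal.
-/

set_option autoImplicit false

namespace Pool.Agent.Results.MP_7710ee_co.ExtremalSets

open Pool.Agent.Lib.MP_ee6709_co

/-- **All groups and all sets which attain `f(m)`, for large `m`.** -/
theorem result : ∃ M : ℕ, ∀ m : ℕ, M ≤ m →
    (∀ n : ℕ, 1 ≤ n → (f m = rhoZ (ZMod n) m ↔ Even n ∧ m ^ 2 / 2 + 2 ≤ n)) ∧
    (∀ (G : Type) [AddCommGroup G] [Finite G],
      (f m = rhoZ G m ↔ ∃ (T : AddSubgroup G) (g : G),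
        (Nat.card T = 2 ∨ (Nat.card T = 4 ∧ m % 4 = 2) ∨ (Nat.card T = 6 ∧ m % 6 = 3)) ∧
        ∀ j : ℕ, 1 ≤ j → j ≤ m ^ 2 / (2 * Nat.card T) → j • g ∉ T)) ∧
    (∀ (G : Type) [AddCommGroup G] [Finite G] (A : Finset G), A.card = m →
      ((WeaklyZeroSumFree A ∧ (SigmaStar A).encard = f m) ↔
        ∃ (T : AddSubgroup G) (g : G) (k : ℕ) (B E : Finset G),
          (Nat.card T = 2 ∨ Nat.card T = 4 ∨ Nat.card T = 6) ∧
          (∀ x, x ∈ A ↔ x ∈ B ∨ (∃ i : ℕ, 1 ≤ i ∧ i ≤ k ∧ x - i • g ∈ T) ∨ x ∈ E) ∧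
          (∀ x ∈ B, x ∈ T) ∧ WeaklyZeroSumFree B ∧ 2 * B.card = Nat.card T ∧
          (∀ x ∈ E, x - (k + 1) • g ∈ T) ∧ E.card ≤ 1 ∧ (E.card = 1 → Nat.card T = 2) ∧
          ∀ j : ℕ, 1 ≤ j → j ≤ m ^ 2 / (2 * Nat.card T) → j • g ∉ T)) := by
  classical
  obtain ⟨M1, h1⟩ := cyclic_iff
  obtain ⟨M2, h2⟩ := groups
  obtain ⟨M3, h3⟩ := classification
  refine ⟨max (max M1 M2) M3, fun m hm => ⟨?_, ?_, ?_⟩⟩
  · exact h1 m (le_trans (le_trans (le_max_left _ _) (le_max_left _ _)) hm)
  · intro G _ _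
    rw [eq_comm]
    exact h2 m (le_trans (le_trans (le_max_right _ _) (le_max_left _ _)) hm) G
  · intro G _ _ A hA
    subst hA
    have : Fintype G := Fintype.ofFinite G
    rw [h3 G A (le_trans (le_max_right _ _) hm)]
    constructor
    · rintro ⟨T, g, k, B, E, h4, h5, h6, h7, h8⟩
      refine ⟨T, g, k, B, E, ?_, h4, h5, h6, h7, h8⟩
      have := half_le h5 ((zsf_iff B).1 h6) h7
      omega
    · rintro ⟨T, g, k, B, E, -, h4⟩
      exact ⟨T, g, k, B, E, h4⟩

end Pool.Agent.Results.MP_7710ee_co.ExtremalSets
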