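import Pool.Agent.Lib.MP_7710ee_inv.Stab
import Pool.Agent.Lib.MP_7710ee_inv.Sharp

/-!
# MP_7710ee_co: the structure of the sets with nearly `f(m)` subset sums, for large `m`

`SigmaStar A` is `Σ*A` (see `Pool/Agent/Lib/MP_ee6709_co/Defs.lean`); `f(m) = ⌊m²/2⌋ + 1` for large
`m`.

1. For every `ε > 0` there is `M` such that for `m = |A| ≥ M` and `s ≤ m²/2 + (1/2 - ε) m` the set
   `A` is weakly zero-sum-free with `|Σ*A| = s` if and only if there are a subgroup `T` of order `2`,
   `4` or `6`, an element `g` and heights `h x ≥ 0` with sum `H` such that `A ∩ T` is a weakly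
   zero-sum-free half of `T`, every `x ∈ A` lies in `h x • g + T`, no `j g` with `1 ≤ j ≤ H` lies in `T`,
   and `s + 1 = |T| (H + 1)`.
2. The constant `1/2` in `(1/2 - ε) m` is optimal: `{1, ..., m}` in cyclic groups of odd order, which
   have no subgroup of even order.

Outline of the proof.  The library of our CyclicForLarge shows that a zero-sum-free set `A` with few
subset sums has, for large `m`, a homomorphism `ψ` of the group generated by `A` onto `ℤ_ν` with a
small kernel `T`, for which the levels of small height are almost full.  Here the analysis is made exact: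
`2 |A ∩ T| = |T| ≤ 6` (otherwise there are `m/2` more sums), the sums of `A` without one element of
height one fill a whole interval of cosets of `T`, hence (no zero sum) all heights have the same sign,
and `|Σ*A| + 1 = |T| (H + 1)`.  Conversely, for such heights a gap among the partial sums of the
heights would make `H` too large.
-/

set_option autoImplicit false

namespace Pool.Agent.Results.MP_7710ee_co.Stability

open Pool.Agent.Lib.MP_ee6709_co

/-- **Stability.** -/
theorem result :
    (∀ ε : ℝ, 0 < ε → ∃ M : ℕ, ∀ (G : Type) [AddCommGroup G] [Finite G] (A : Finset G) (s : ℕ),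
      M ≤ A.card → (s : ℝ) ≤ (A.card : ℝ) ^ 2 / 2 + (1 / 2 - ε) * A.card →
      ((WeaklyZeroSumFree A ∧ (SigmaStar A).encard = s) ↔
        ∃ (T : AddSubgroup G) (g : G) (h : G → ℕ) (B : Finset G),
          (Nat.card T = 2 ∨ Nat.card T = 4 ∨ Nat.card T = 6) ∧
          (∀ x, x ∈ B ↔ x ∈ A ∧ x ∈ T) ∧ WeaklyZeroSumFree B ∧ 2 * B.card = Nat.card T ∧
          (∀ x ∈ A, x - h x • g ∈ T) ∧
          (∀ j : ℕ, 1 ≤ j → j ≤ ∑ x ∈ A, h x → j • g ∉ T) ∧
          s + 1 = Nat.card T * (∑ x ∈ A, h x + 1))) ∧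
    (∀ m : ℕ, ∃ (n : ℕ) (A : Finset (ZMod n)), Odd n ∧ A.card = m ∧ WeaklyZeroSumFree A ∧
      (SigmaStar A).encard = ((m * (m + 1) / 2 : ℕ) : ℕ∞)) := by
  classical
  refine ⟨fun ε hε => ?_, sharp_zmod⟩
  obtain ⟨M, hM⟩ := stability.{0} ε hε
  refine ⟨M, fun G _ _ A s hA hs => ?_⟩
  have : Fintype G := Fintype.ofFinite G
  have h1 : (WeaklyZeroSumFree A ∧ (SigmaStar A).encard = s) ↔ (ZSF A ∧ (SS A).card = s + 1) := by
    constructor
    · rintro ⟨hw, he⟩
      refine ⟨(zsf_iff A).1 hw, ?_⟩
      have h2 := encard_SigmaStar hw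
      rw [he] at h2
      exact_mod_cast h2.symm
    · rintro ⟨hz, hc⟩
      have hw := (zsf_iff A).2 hz
      refine ⟨hw, ?_⟩
      have h2 := encard_SigmaStar hw
      rw [hc] at h2
      have h3 : (SigmaStar A).encard + 1 = (s : ℕ∞) + 1 := by rw [h2]; push_cast; rfl
      exact le_antisymm ((ENat.add_le_add_iff_right (by simp)).1 h3.le)
        ((ENat.add_le_add_iff_right (by simp)).1 h3.ge)
  rw [h1, hM G A s hA hs]
  constructor
  · rintro ⟨T, g, h, B, hH, heq⟩
    have hle := hH.le3
    have hhalf := hH.half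
    exact ⟨T, g, h, B, by omega, hH.mem, (zsf_iff B).2 hH.zsf, hH.half, hH.hts, hH.tot, heq⟩
  · rintro ⟨T, g, h, B, -, h2, h3, h4, h5, h6, h7⟩
    exact ⟨T, g, h, B, ⟨h2, (zsf_iff B).1 h3, h4, h5, h6⟩, h7⟩

end Pool.Agent.Results.MP_7710ee_co.Stability
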